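import Pool.Agent.H30.AX.Targets
import Pool.Agent.H86.AW.CU2

/-!
# MP_70ba79_ag, board `aw_modules`: CU3, the inequality for one curve (orbifold version)
-/

set_option autoImplicit false

namespace Pool.Agent.H86.AX

open MvPolynomial SC Pool.Agent.H27.LV Pool.Agent.H30.AV Pool.Agent.H30.AW Pool.Agent.H30.AX

/-- a hyperplane which does not meet the curve at the place `v` -/
theorem exists_lam {k K : Type} [Field k] [Field K] [Algebra k K] (v : DV k K) {n : ℕ}
    (y : Fin n → K) : ∃ a : Fin (n + 1) → k, ell a (xx y) ≠ 0 ∧ lam v y a = 0 := by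
  classical
  by_cases h : poleOrder v y = 0
  · refine ⟨Fin.cons 1 0, ?_, ?_⟩
    · rw [ell, Fin.sum_univ_succ]
      simp [xx]
    · have h1 : ell (Fin.cons 1 0 : Fin (n + 1) → k) (xx y) = 1 := by
        rw [ell, Fin.sum_univ_succ]
        simp [xx]
      rw [lam, h1, h, v.ord_one]
      simp
  · have hne : (Finset.univ : Finset (Fin n)).Nonempty := by
      by_contra hcon
      rw [Finset.not_nonempty_iff_eq_empty] at hcon
      apply h
      unfold poleOrder
      rw [hcon, Finset.sup_empty]
      rfl
    obtain ⟨j, _, hj⟩ := Finset.exists_mem_eq_sup Finset.univ hne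
      fun j => (-(v.ord (y j))).toNat
    have hj' : poleOrder v y = (-(v.ord (y j))).toNat := hj
    have h2 : v.ord (y j) = -(poleOrder v y : ℤ) := by omega
    have h1 : ell (Fin.cons 0 (Pi.single j 1) : Fin (n + 1) → k) (xx y) = y j := by
      rw [ell, Fin.sum_univ_succ]
      simp only [Fin.cons_zero, map_zero, zero_mul, zero_add, Fin.cons_succ, xx]
      rw [Finset.sum_eq_single j]
      · simp
      · intro i _ hi
        rw [Pi.single_eq_of_ne hi]
        simp
      · intro h3
        exact absurd (Finset.mem_univ j) h3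
    refine ⟨Fin.cons 0 (Pi.single j 1), ?_, ?_⟩
    · rw [h1]
      intro h3
      rw [h3, v.ord_zero] at h2
      omega
    · rw [lam, h1, h2]
      ring

theorem pf_CU3 (hLO3 : T_LO3) (hRAT : T_RAT) (hPFM : T_PFM) (hDFI : T_DFI) (hPFI : T_PFI) :
    T_CU3 := by
  intro k K _ _ _ _ _ _ htr m n q r β N w c e a b S y D G g h hm hD _ hO hI hE hwr hG hg hh
    hrel hne
  classical
  have hL := fun (i : Fin q) (d : Fin 2) (v : DV k K) =>
    hLO3 k K htr n m (a i) (b i d) S y D hD hm (hO i) v
  have hlift : ∀ (v : DV k K) p, ge v (kp D S y v) (lift2 y D p) := by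
    intro v p
    obtain ⟨a', ha, hv⟩ := exists_lam v y
    have hfin : {u : DV k K | lam u y a' ≠ 0}.Finite := by
      refine ((hPFM k K htr (ell a' (xx y))).1.union (hPFI k K htr (Fin n) y)).subset
        fun u hu => ?_
      by_contra hcon
      rw [Set.mem_union, not_or] at hcon
      apply hu
      have h1 : u.ord (ell a' (xx y)) = 0 := not_not.1 hcon.1
      have h2 : poleOrder u y = 0 := not_not.1 hcon.2
      rw [lam, h1, h2]
      rfl
    have hOrb : Orb m (S ∪ hfin.toFinset) y a' := by
      refine ⟨ha, fun u hu => Or.inl ?_⟩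
      by_contra h1
      apply hu
      rw [Finset.mem_union, Set.Finite.mem_toFinset]
      exact Or.inr h1
    have h1 := (hLO3 k K htr n m a' 0 (S ∪ hfin.toFinset) y D hD hm hOrb v).2.1 p
    have h2 : kp D (S ∪ hfin.toFinset) y v = kp D S y v := by
      unfold kp
      have h3 : v ∈ S ∪ hfin.toFinset ↔ v ∈ S := by
        rw [Finset.mem_union, Set.Finite.mem_toFinset]
        exact ⟨fun h4 => h4.resolve_right fun h5 => h5 hv, Or.inl⟩
      simp only [h3]
    rwa [h2] at h1
  refine Pool.Agent.H86.AW.global_core hPFM hDFI hPFI htr (a := a)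
    (Θ := aeval (lift2 y D) (G * ∏ I, g I)) (κ := kp D S y) hD ?_ fun v => ?_
  · intro T hST _
    simp only [kp]
    rw [Finset.sum_sub_distrib, Finset.sum_sub_distrib, ← Finset.sum_filter, ← Finset.mul_sum]
    have h1 : T.filter (fun v => v ∈ S) = S := by
      ext v
      simp only [Finset.mem_filter]
      exact ⟨fun h => h.2, fun h => ⟨hST h, h⟩⟩
    rw [h1]
    simp
    ring
  · exact Pool.Agent.H86.AW.local_core (hRAT k K htr v).2 hm (fun i => (hL i 0 v).1) (hlift v)
      (fun i d => (hL i d v).2.2) (hI v) (hE v) hwr hG hg hh hrel hne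

end Pool.Agent.H86.AX
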