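import Pool.Agent.H73.AX.Circ
import Pool.Agent.H86.AW.ChainW

/-! Good assignments are hard: the chain argument with circuits as jumps. -/

namespace Pool.Agent.H73.AX

open Finset Matrix Pool.Agent.H73.QA Pool.Agent.H73.AD Pool.Agent.H73.AW

set_option linter.unusedSectionVars false
set_option linter.deprecated false

variable {n k m : ℕ} {Y : Type} [Fintype Y] [DecidableEq Y] {p q r : ℕ}

section chainX
variable {α κ Λ t u ε δ ν g : ℝ} {A : Set (Fin p → ℝ)} {G : Fin m → Clause n k}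
    {w : Fin p → List (Letter n m Y)} {T : Fin q → List (Gate n p Y)} {z : Cube n}

/-- a Hamiltonian of a schedule -/
structure NodeX (α κ Λ g : ℝ) (A : Set (Fin p → ℝ)) (G : Fin m → Clause n k)
    (w : Fin p → List (Letter n m Y)) (z : Cube n) (a : Fin p → ℝ) (E : ℝ)
    (ψ : Cube n × Y → ℂ) : Prop where
  mem : a ∈ A
  toW : NodeW α κ Λ g G w z a E ψ

/-- the standing assumptions -/
structure ParX (α κ Λ u ε δ ν : ℝ) (r : ℕ) (A : Set (Fin p → ℝ)) (G : Fin m → Clause n k)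
    (w : Fin p → List (Letter n m Y)) (T : Fin q → List (Gate n p Y)) (z : Cube n) : Prop where
  hκ : 0 < κ
  hκ1 : κ ≤ 1
  hΛ : 0 ≤ Λ
  hε0 : 0 ≤ ε
  hε : ε ≤ 1
  hν0 : 0 ≤ ν
  hsm : Λ * (r * 2 ^ (r + 1)) * (ν + ε + 2 / Real.sqrt (2 ^ k)) ≤ κ / 4
  hm : 0 < m
  hG : Typ ε δ ν G
  hw : ∀ i, ∀ l ∈ w i, l.Ok k
  hr : ∀ i, (w i).length ≤ r
  hT : ∀ j, ∀ c ∈ T j, c.Ok
  hz : GoodX α κ Λ δ (κ * (2 : ℝ) ^ (-u * n) / (1600 * (Λ + 1) * 2 ^ r)) r A G w T z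

/-- the numbers -/
theorem num_etaX {κ τ Λ : ℝ} (hκ : 0 < κ) (hτ : 0 < τ) (hΛ : 0 ≤ Λ) (r : ℕ) :
    0 ≤ κ * τ / (1600 * (Λ + 1) * 2 ^ r) ∧
    κ * τ / (1600 * (Λ + 1) * 2 ^ r) ≤ κ * τ / 1600 ∧
    Λ * 2 ^ (r + 2) * (κ * τ / (1600 * (Λ + 1) * 2 ^ r)) ≤ κ * τ / 400 := by
  obtain ⟨e, he⟩ : ∃ e : ℝ, e = 2 ^ r := ⟨_, rfl⟩
  have h1 : (1 : ℝ) ≤ e := by rw [he]; exact one_le_pow₀ (by norm_num)
  have hL : 0 < Λ + 1 := by linarith
  have hkt : 0 < κ * τ := mul_pos hκ hτ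
  have he0 : 0 < e := by linarith
  have p2 : (2 : ℝ) ^ (r + 2) = 4 * e := by rw [he, pow_add]; norm_num; ring
  rw [p2, ← he]
  refine ⟨by positivity, ?_, ?_⟩
  · refine div_le_div_of_nonneg_left hkt.le (by norm_num) ?_
    nlinarith
  · have h5 : Λ * (4 * e) * (κ * τ / (1600 * (Λ + 1) * e)) = κ * τ / 400 * (Λ / (Λ + 1)) := by
      field_simp
      ring
    rw [h5]
    have h6 : Λ / (Λ + 1) ≤ 1 := (div_le_one hL).2 (by linarith)
    have h7 : 0 < κ * τ / 400 := by positivity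
    nlinarith

theorem ham_diff_le (hP : ParX α κ Λ u ε δ ν r A G w T z) {a : Fin p → ℝ} (ha : ∑ i, |a i| ≤ Λ)
    {η : ℝ} {x : Sp n Y} (hx : NR G δ r w z x ≤ η) :
    ‖lin (Ham (Letter.flt G δ z) w a) x - lin (Ham (Letter.op G z) w a) x‖ ≤
      Λ * 2 ^ (r + 2) * η := by
  refine (ham_diffX hP.hm hP.hε hP.hG z w hP.hw hP.hr a x).trans ?_
  have hΛ := hP.hΛ
  have h0 := NR_nonneg G δ r w z x
  have h1 : 0 ≤ ∑ i, |a i| := sum_nonneg fun i _ => abs_nonneg _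
  gcongr

/-- the level condition for the averaged Hamiltonian -/
theorem nodeX_few (hP : ParX α κ Λ u ε δ ν r A G w T z) (hu : (2 : ℝ) ^ (-u * n) ≤ 1)
    {a : Fin p → ℝ} {E : ℝ} {ψ : Cube n × Y → ℂ} (hn : NodeX α κ Λ g A G w z a E ψ) :
    Few α (κ / 2) E (Ham Letter.av w a) := by
  obtain ⟨τ, hτ⟩ : ∃ τ : ℝ, τ = (2 : ℝ) ^ (-u * n) := ⟨_, rfl⟩
  have hτ0 : 0 < τ := by rw [hτ]; positivity
  have hκ := hP.hκ
  obtain ⟨hη0, -, hη4⟩ := num_etaX hκ hτ0 hP.hΛ r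
  have hz := hP.hz
  rw [← hτ] at hu hz
  rcases hn.toW.low with h1 | ⟨h1, E0, v, hv0, hv, hf⟩
  · exact few_mono h1 (by linarith)
  · -- normalise `v`
    have hv0' : (WithLp.toLp 2 v : Sp n Y) ≠ 0 := by
      intro h
      apply hv0
      have := congrArg WithLp.ofLp h
      simpa using this
    obtain ⟨x, hx⟩ : ∃ x : Sp n Y, x = ((‖(WithLp.toLp 2 v : Sp n Y)‖⁻¹ : ℝ) : ℂ) •
      (WithLp.toLp 2 v : Sp n Y) := ⟨_, rfl⟩
    have hx1 : ‖x‖ = 1 := by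
      rw [hx, norm_smul, Complex.norm_real, Real.norm_of_nonneg (by positivity)]
      exact inv_mul_cancel₀ (norm_ne_zero_iff.2 hv0')
    have hxe : lin (Ham Letter.av w a) x = (E0 : ℂ) • x := by
      rw [hx, map_smul, lin_eq, lin_toLp, hv, smul_comm]
      rfl
    have hNR := hz.g0 a E0 x hn.mem hn.toW.coeff hx1 hxe hf
    have h2 := ham_diff_le hP hn.toW.coeff hNR
    have h3 := ham_av_flt (δ := δ) hP.hm hP.hε0 hP.hε hP.hν0 hP.hG z w hP.hw hP.hr a hn.toW.coeff x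
    rw [hx1, mul_one] at h3
    have h4 : ‖lin (Ham Letter.av w a) x - lin (Ham (Letter.op G z) w a) x‖ ≤ κ / 2 := by
      have h5 : lin (Ham Letter.av w a) x - lin (Ham (Letter.op G z) w a) x =
          (lin (Ham Letter.av w a) x - lin (Ham (Letter.flt G δ z) w a) x) +
          (lin (Ham (Letter.flt G δ z) w a) x - lin (Ham (Letter.op G z) w a) x) := by abel
      rw [h5]
      refine (norm_add_le _ _).trans ?_
      have h6 := hP.hsm
      have h7 : κ * τ ≤ κ := by nlinarith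
      linarith
    have h5 : E ≤ (inner ℂ x (lin (Ham (Letter.op G z) w a) x)).re := by
      have h6 := h1 (WithLp.ofLp x)
      rw [quad_toLp, nsq_eq] at h6
      change E * ‖x‖ ^ 2 ≤ (inner ℂ x (lin (Ham (Letter.op G z) w a) x)).re at h6
      rwa [hx1, one_pow, mul_one] at h6
    have h6 : (inner ℂ x (lin (Ham (Letter.op G z) w a) x)).re = E0 -
        (inner ℂ x (lin (Ham Letter.av w a) x - lin (Ham (Letter.op G z) w a) x)).re := by
      rw [inner_sub_right, Complex.sub_re, eig_re hx1 hxe]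
      ring
    have h7 : |(inner ℂ x (lin (Ham Letter.av w a) x -
        lin (Ham (Letter.op G z) w a) x)).re| ≤ κ / 2 := by
      refine (Complex.abs_re_le_norm _).trans ((norm_inner_le_norm _ _).trans ?_)
      rw [hx1, one_mul]
      exact h4
    have h8 := (abs_le.1 h7).1
    exact few_mono hf (by linarith)

theorem nodeX_bound (hP : ParX α κ Λ u ε δ ν r A G w T z) {a : Fin p → ℝ} {E : ℝ}
    {ψ : Cube n × Y → ℂ} (hn : NodeX α κ Λ g A G w z a E ψ) : |E| ≤ Λ * 2 ^ (r + 1) := by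
  obtain ⟨h1, h2, -⟩ := nodeW_hilbert hn.toW
  have h3 := norm_ham_op hP.hm hP.hε hP.hG z w hP.hw hP.hr a hn.toW.coeff (WithLp.toLp 2 ψ)
  rw [h2, norm_smul, h1, mul_one, mul_one, Complex.norm_real] at h3
  exact h3

/-- the flattened state near a node of type I -/
theorem typeX_core (hP : ParX α κ Λ u ε δ ν r A G w T z) (hg : (2 : ℝ) ^ (-u * n) < g)
    (hg1 : g ≤ 1) {a : Fin p → ℝ} {E : ℝ} {ψ : Cube n × Y → ℂ}
    (hn : NodeX α κ Λ g A G w z a E ψ) (hI : TypeW κ δ g G w z a E) :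
    ∃ (f : ℝ) (φ χ : Sp n Y) (c : ℂ), ‖φ‖ = 1 ∧
      lin (Ham (Letter.flt G δ z) w a) φ = (f : ℂ) • φ ∧ |f - E| ≤ κ / 8 ∧
      φ = c • (WithLp.toLp 2 ψ : Sp n Y) + χ ∧
      g * ‖χ‖ ≤ κ * (2 : ℝ) ^ (-u * n) / 300 ∧ 99 / 100 ≤ ‖c‖ ∧
      ∀ o : Option (Fin q), NX G δ r w z (Tw T o) φ ≤
        κ * (2 : ℝ) ^ (-u * n) / (1600 * (Λ + 1) * 2 ^ r) := by
  have hfew := nodeX_few hP (hg.le.trans hg1) hn
  obtain ⟨τ, hτ⟩ : ∃ τ : ℝ, τ = (2 : ℝ) ^ (-u * n) := ⟨_, rfl⟩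
  have hτ0 : 0 < τ := by rw [hτ]; positivity
  have hκ := hP.hκ
  have hκ1 := hP.hκ1
  obtain ⟨hη0, -, hη4⟩ := num_etaX hκ hτ0 hP.hΛ r
  have hz := hP.hz
  rw [← hτ] at hg hz ⊢
  have hg0 : 0 < g := hτ0.trans hg
  obtain ⟨f, φ, hφ, hf, hfE⟩ := hI
  have hκg : κ * g ≤ κ := by nlinarith
  have hfE' : |f - E| ≤ κ / 8 := by linarith
  have hNX := hz.g1 a E f φ hn.mem hn.toW.coeff hφ hf hfew hfE'
  have hNR : NR G δ r w z φ ≤ κ * τ / (1600 * (Λ + 1) * 2 ^ r) := by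
    have h1 := hNX none
    have h2 := ER_nonneg G δ r w z (Tw T none) φ
    have h3 := NR_nonneg G δ r w z (lin (circ (Letter.flt G δ z) w z (Tw T none)) φ)
    unfold NX at h1
    linarith
  have hdiff := ham_diff_le hP hn.toW.coeff hNR
  obtain ⟨hψ1, hψ2, hψ3⟩ := nodeW_hilbert hn.toW
  obtain ⟨c, χ, h1, h2, h3⟩ := near_eig (H := lin (Ham (Letter.op G z) w a))
    (N := lin (Ham (Letter.flt G δ z) w a) - lin (Ham (Letter.op G z) w a))
    (lin_symm (ham_herm _ w a)) hg0 hψ1 hψ2 hψ3 (f := f) (φ := φ)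
    (ν := Λ * 2 ^ (r + 2) * (κ * τ / (1600 * (Λ + 1) * 2 ^ r)))
    (by rw [LinearMap.sub_apply, add_sub_cancel]; exact hf)
    (by
      have : κ * g ≤ g := by nlinarith
      linarith)
    (by rw [LinearMap.sub_apply]; exact hdiff)
  have hχ : g * ‖χ‖ ≤ κ * τ / 300 := by linarith
  refine ⟨f, φ, χ, c, hφ, hf, hfE', h1, hχ, ?_, hNX⟩
  have h4 := two_pyth h2 c
  rw [← h1, hφ, hψ1] at h4
  have h5 : ‖χ‖ ≤ 1 / 100 := by
    have h6 : κ * τ ≤ g := by nlinarith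
    have h7 : g * ‖χ‖ ≤ g * (1 / 100) := by linarith
    exact le_of_mul_le_mul_left h7 hg0
  have h6 : ‖χ‖ ^ 2 ≤ (1 / 100) ^ 2 := pow_le_pow_left₀ (norm_nonneg _) h5 2
  refine le_of_sq_le_sq ?_ (norm_nonneg _)
  nlinarith

theorem Tw_ok (hP : ParX α κ Λ u ε δ ν r A G w T z) (o : Option (Fin q)) :
    ∀ c ∈ Tw T o, c.Ok := by
  cases o with
  | none => intro c hc; exact absurd hc (by simp [Tw])
  | some j => exact hP.hT j

theorem typeX_out (hP : ParX α κ Λ u ε δ ν r A G w T z) (hg : (2 : ℝ) ^ (-u * n) < g)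
    (hg1 : g ≤ 1) {a : Fin p → ℝ} {E : ℝ} {ψ : Cube n × Y → ℂ}
    (hn : NodeX α κ Λ g A G w z a E ψ) (hI : TypeW κ δ g G w z a E) (o : Option (Fin q)) :
    ‖nearP (hball δ z) (lin (circ (Letter.op G z) w z (Tw T o)) (WithLp.toLp 2 ψ : Sp n Y))‖ ≤
      (2 : ℝ) ^ (-u * n) / g := by
  obtain ⟨f, φ, χ, c, hφ, hf, hf2, h1, hχ, hc, hNX⟩ := typeX_core hP hg hg1 hn hI
  obtain ⟨τ, hτ⟩ : ∃ τ : ℝ, τ = (2 : ℝ) ^ (-u * n) := ⟨_, rfl⟩
  have hτ0 : 0 < τ := by rw [hτ]; positivity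
  have hκ := hP.hκ
  have hκ1 := hP.hκ1
  obtain ⟨hη0, hη1, -⟩ := num_etaX hκ hτ0 hP.hΛ r
  rw [← hτ] at hg hχ hNX ⊢
  have hg0 : 0 < g := hτ0.trans hg
  obtain ⟨Xo, hXo⟩ : ∃ X, X = lin (circ (Letter.op G z) w z (Tw T o)) := ⟨_, rfl⟩
  obtain ⟨Xf, hXf⟩ : ∃ X, X = lin (circ (Letter.flt G δ z) w z (Tw T o)) := ⟨_, rfl⟩
  have hcd := circ_diff hP.hm hP.hε hP.hG z w hP.hw hP.hr (Tw T o) (Tw_ok hP o) φ
  have hnχ := norm_circ (Letter.op G z) w z (Tw T o) (Tw_ok hP o) χ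
  have hnear := near_le_NR G δ r w z (lin (circ (Letter.flt G δ z) w z (Tw T o)) φ)
  have hNXo := hNX o
  unfold NX at hNXo
  have hNR0 := NR_nonneg G δ r w z φ
  rw [← hXo] at hcd hnχ ⊢
  rw [← hXf] at hcd hnear hNXo
  have h2 : c • nearP (hball δ z) (Xo (WithLp.toLp 2 ψ : Sp n Y)) =
      nearP (hball δ z) (Xf φ) - nearP (hball δ z) (Xf φ - Xo φ) -
        nearP (hball δ z) (Xo χ) := by
    rw [← map_sub, sub_sub_cancel, ← map_sub]
    nth_rewrite 1 [h1]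
    rw [map_add, map_smul, add_sub_cancel_right, map_smul]
  have h3 : ‖c‖ * ‖nearP (hball δ z) (Xo (WithLp.toLp 2 ψ : Sp n Y))‖ ≤
      κ * τ / 1600 + ‖χ‖ := by
    rw [← norm_smul, h2]
    refine (norm_sub_le _ _).trans (add_le_add ((norm_sub_le _ _).trans ?_)
      ((norm_nearP_le _ _).trans hnχ))
    have h5 := (norm_nearP_le (hball δ z) (Xf φ - Xo φ)).trans hcd
    linarith
  rw [le_div_iff₀ hg0]
  have h4 : g * (‖c‖ * ‖nearP (hball δ z) (Xo (WithLp.toLp 2 ψ : Sp n Y))‖) ≤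
      g * (κ * τ / 1600 + ‖χ‖) := mul_le_mul_of_nonneg_left h3 hg0.le
  have h5 : 99 / 100 * (g * ‖nearP (hball δ z) (Xo (WithLp.toLp 2 ψ : Sp n Y))‖) ≤
      ‖c‖ * (g * ‖nearP (hball δ z) (Xo (WithLp.toLp 2 ψ : Sp n Y))‖) :=
    mul_le_mul_of_nonneg_right hc (by positivity)
  have h6 : g * (κ * τ / 1600) ≤ κ * τ / 1600 := by
    have : 0 ≤ κ * τ / 1600 := by positivity
    nlinarith
  have h7 : κ * τ ≤ τ := by nlinarith
  nlinarith

theorem typeX_step (hP : ParX α κ Λ u ε δ ν r A G w T z) (hg : (2 : ℝ) ^ (-u * n) < g)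
    (hg1 : g ≤ 1) {a a' : Fin p → ℝ} {E E' : ℝ} {ψ ψ' : Cube n × Y → ℂ}
    (hn : NodeX α κ Λ g A G w z a E ψ) (hI : TypeW κ δ g G w z a E)
    (hn' : NodeX α κ Λ g A G w z a' E' ψ') (o : Option (Fin q))
    (ho : (2 : ℝ) ^ (-u * n) / g < ‖inner ℂ (WithLp.toLp 2 ψ' : Sp n Y)
      (lin (circ (Letter.op G z) w z (Tw T o)) (WithLp.toLp 2 ψ))‖) :
    TypeW κ δ g G w z a' E' := by
  obtain ⟨f, φ, χ, c, hφ, hf, hf2, h1, hχ, hc, hNX⟩ := typeX_core hP hg hg1 hn hI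
  have hfew := nodeX_few hP (hg.le.trans hg1) hn
  have hfew' := nodeX_few hP (hg.le.trans hg1) hn'
  by_contra hI'
  obtain ⟨τ, hτ⟩ : ∃ τ : ℝ, τ = (2 : ℝ) ^ (-u * n) := ⟨_, rfl⟩
  have hτ0 : 0 < τ := by rw [hτ]; positivity
  have hκ := hP.hκ
  have hκ1 := hP.hκ1
  obtain ⟨hη0, hη1, hη4⟩ := num_etaX hκ hτ0 hP.hΛ r
  have hz := hP.hz
  rw [← hτ] at hg hχ hNX ho hz
  have hg0 : 0 < g := hτ0.trans hg
  have hd : 0 < κ * g / 8 := by positivity
  have hκτ : κ * τ ≤ τ := by nlinarith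
  have hcd := circ_diff hP.hm hP.hε hP.hG z w hP.hw hP.hr (Tw T o) (Tw_ok hP o) φ
  have hnχ := norm_circ (Letter.op G z) w z (Tw T o) (Tw_ok hP o) χ
  have hflt := norm_circ (Letter.flt G δ z) w z (Tw T o) (Tw_ok hP o) φ
  rw [hφ] at hflt
  have hNXo := hNX o
  unfold NX at hNXo
  have hNR0 := NR_nonneg G δ r w z φ
  have hNR1 := NR_nonneg G δ r w z (lin (circ (Letter.flt G δ z) w z (Tw T o)) φ)
  have hdf : ‖lin (circ (Letter.flt G δ z) w z (Tw T o)) φ -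
      lin (circ (Letter.op G z) w z (Tw T o)) φ‖ ≤ κ * τ / 1600 := by linarith
  rcases dichotomy (H := lin (Ham (Letter.flt G δ z) w a')) (lin_symm (ham_herm _ w a')) E' hd
    with h2 | h2
  · obtain ⟨f', φ', h3, h4, h5⟩ := h2
    exact hI' ⟨f', φ', h3, h4, h5⟩
  · obtain ⟨v, hv1, hv2⟩ := h2 (lin (circ (Letter.flt G δ z) w z (Tw T o)) φ)
    have hvn : ‖v‖ ≤ 1 := hv1.trans hflt
    have hd1 : κ * g / 8 ≤ 1 := by
      have : κ * g ≤ 1 := mul_le_one₀ hκ1 hg0.le hg1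
      linarith
    have hNRv := hz.g2 a E f φ hn.mem hn.toW.coeff hφ hf hfew hf2 o a' E' (κ * g / 8) v hn'.mem
      hn'.toW.coeff hfew'
      (nodeX_bound hP hn') hd hd1 hvn hv2
    have hdiff := ham_diff_le hP hn'.toW.coeff hNRv
    obtain ⟨hψ1, hψ2, -⟩ := nodeW_hilbert hn'.toW
    have h3 := overlap_far (H := lin (Ham (Letter.op G z) w a'))
      (N := lin (Ham (Letter.flt G δ z) w a') - lin (Ham (Letter.op G z) w a'))
      (lin_symm (ham_herm _ w a'))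
      ((lin_symm (ham_herm _ w a')).sub (lin_symm (ham_herm _ w a'))) hd hψ1 hψ2
      (v := v) (u := lin (circ (Letter.flt G δ z) w z (Tw T o)) φ) (by
        rw [LinearMap.sub_apply, add_sub_cancel]
        exact hv2)
    rw [LinearMap.sub_apply] at h3
    obtain ⟨B, hA⟩ : ∃ B : ℝ, B = ‖inner ℂ (WithLp.toLp 2 ψ' : Sp n Y)
      (lin (circ (Letter.flt G δ z) w z (Tw T o)) φ)‖ := ⟨_, rfl⟩
    rw [← hA] at h3
    have h5 : g * B ≤ 2 / 100 * τ := by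
      have h6 : κ * g / 8 * B ≤ κ * τ / 400 := (h3.trans hdiff).trans hη4
      have h8 : κ * (g * B) ≤ κ * (2 / 100 * τ) := by linarith
      exact le_of_mul_le_mul_left h8 hκ
    -- the actual circuit
    have h6 : c * inner ℂ (WithLp.toLp 2 ψ' : Sp n Y)
          (lin (circ (Letter.op G z) w z (Tw T o)) (WithLp.toLp 2 ψ)) =
        inner ℂ (WithLp.toLp 2 ψ' : Sp n Y) (lin (circ (Letter.flt G δ z) w z (Tw T o)) φ) -
          inner ℂ (WithLp.toLp 2 ψ' : Sp n Y) (lin (circ (Letter.flt G δ z) w z (Tw T o)) φ -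
            lin (circ (Letter.op G z) w z (Tw T o)) φ) -
          inner ℂ (WithLp.toLp 2 ψ' : Sp n Y) (lin (circ (Letter.op G z) w z (Tw T o)) χ) := by
      rw [inner_sub_right, sub_sub_cancel]
      nth_rewrite 1 [h1]
      rw [map_add, map_smul, inner_add_right, inner_smul_right]
      ring
    have h7 : ‖inner ℂ (WithLp.toLp 2 ψ' : Sp n Y)
        (lin (circ (Letter.op G z) w z (Tw T o)) χ)‖ ≤ ‖χ‖ := by
      refine (norm_inner_le_norm _ _).trans ?_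
      rw [hψ1, one_mul]
      exact hnχ
    have h7' : ‖inner ℂ (WithLp.toLp 2 ψ' : Sp n Y)
        (lin (circ (Letter.flt G δ z) w z (Tw T o)) φ -
            lin (circ (Letter.op G z) w z (Tw T o)) φ)‖ ≤ κ * τ / 1600 := by
      refine (norm_inner_le_norm _ _).trans ?_
      rw [hψ1, one_mul]
      exact hdf
    have h8 : ‖c‖ * ‖inner ℂ (WithLp.toLp 2 ψ' : Sp n Y)
          (lin (circ (Letter.op G z) w z (Tw T o)) (WithLp.toLp 2 ψ))‖ ≤
        B + κ * τ / 1600 + ‖χ‖ := by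
      rw [← norm_mul, h6]
      refine (norm_sub_le _ _).trans (add_le_add ((norm_sub_le _ _).trans ?_) h7)
      rw [← hA]
      exact add_le_add (le_refl _) h7'
    rw [div_lt_iff₀ hg0] at ho
    have h9 := mul_le_mul_of_nonneg_left h8 hg0.le
    have h10 : 99 / 100 * (‖inner ℂ (WithLp.toLp 2 ψ' : Sp n Y)
          (lin (circ (Letter.op G z) w z (Tw T o)) (WithLp.toLp 2 ψ))‖ * g) ≤
        ‖c‖ * (‖inner ℂ (WithLp.toLp 2 ψ' : Sp n Y)
          (lin (circ (Letter.op G z) w z (Tw T o)) (WithLp.toLp 2 ψ))‖ * g) :=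
      mul_le_mul_of_nonneg_right hc (mul_nonneg (norm_nonneg _) hg0.le)
    have h11 : g * (κ * τ / 1600) ≤ κ * τ / 1600 := by
      have : 0 ≤ κ * τ / 1600 := by positivity
      nlinarith
    nlinarith

theorem typeX_step0 (hP : ParX α κ Λ u ε δ ν r A G w T z) (hg : (2 : ℝ) ^ (-u * n) < g)
    (hg1 : g ≤ 1) {a a' : Fin p → ℝ} {E E' : ℝ} {ψ ψ' : Cube n × Y → ℂ}
    (hn : NodeX α κ Λ g A G w z a E ψ) (hI : TypeW κ δ g G w z a E)
    (hn' : NodeX α κ Λ g A G w z a' E' ψ') (ho : (2 : ℝ) ^ (-u * n) / g < ‖star ψ' ⬝ᵥ ψ‖) :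
    TypeW κ δ g G w z a' E' := by
  refine typeX_step hP hg hg1 hn hI hn' none ?_
  have h1 : lin (circ (Letter.op G z) w z (Tw T none)) (WithLp.toLp 2 ψ) =
      WithLp.toLp 2 ψ := by
    change lin (circ (Letter.op G z) w z []) _ = _
    unfold circ
    rw [List.map_nil, List.prod_nil, lin_one']
  rw [h1, inner_toLp']
  exact ho

theorem typeX_step1 (hP : ParX α κ Λ u ε δ ν r A G w T z) (hg : (2 : ℝ) ^ (-u * n) < g)
    (hg1 : g ≤ 1) {a a' : Fin p → ℝ} {E E' : ℝ} {ψ ψ' : Cube n × Y → ℂ}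
    (hn : NodeX α κ Λ g A G w z a E ψ) (hI : TypeW κ δ g G w z a E)
    (hn' : NodeX α κ Λ g A G w z a' E' ψ')
    (ho : ∃ j, (2 : ℝ) ^ (-u * n) / g < ‖star ψ' ⬝ᵥ circ (Letter.op G z) w z (T j) *ᵥ ψ‖) :
    TypeW κ δ g G w z a' E' := by
  obtain ⟨j, ho⟩ := ho
  refine typeX_step hP hg hg1 hn hI hn' (some j) ?_
  rw [lin_eq, lin_toLp, inner_toLp']
  exact ho

/-- all nodes of a continuous path have the same type -/
theorem typeX_path (hP : ParX α κ Λ u ε δ ν r A G w T z) (hg : (2 : ℝ) ^ (-u * n) < g)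
    (hg1 : g ≤ 1) {a : ℝ → Fin p → ℝ} {E : ℝ → ℝ} {ψ : ℝ → Cube n × Y → ℂ}
    (ha : ContinuousOn a (Set.Icc 0 1)) (hE : ContinuousOn E (Set.Icc 0 1))
    (hn : ∀ s ∈ Set.Icc (0 : ℝ) 1, NodeX α κ Λ g A G w z (a s) (E s) (ψ s))
    (h0 : TypeW κ δ g G w z (a 0) (E 0)) {s : ℝ} (hs : s ∈ Set.Icc (0 : ℝ) 1) :
    TypeW κ δ g G w z (a s) (E s) := by
  obtain ⟨τ, hτ⟩ : ∃ τ : ℝ, τ = (2 : ℝ) ^ (-u * n) := ⟨_, rfl⟩
  have hτ0 : 0 < τ := by rw [hτ]; positivity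
  have hg0 : 0 < g := by rw [← hτ] at hg; exact hτ0.trans hg
  have ha' : Continuous fun s : Set.Icc (0 : ℝ) 1 => a s := ha.restrict
  have hE' : Continuous fun s : Set.Icc (0 : ℝ) 1 => E s := hE.restrict
  have hH := continuous_Ham (Letter.op G z) w ha'
  have hr : τ / g < 1 := by
    rw [div_lt_one hg0, hτ]
    exact hg
  have hr0 : 0 < τ / g := div_pos hτ0 hg0
  -- a step size
  obtain ⟨ε1, hε1, hε2⟩ : ∃ ε1 : ℝ, 0 < ε1 ∧ (τ / g) ^ 2 < 1 - (2 * ε1 / g) ^ 2 := by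
    refine ⟨g / 2 * (1 - τ / g), mul_pos (by positivity) (by linarith), ?_⟩
    have h1 : 2 * (g / 2 * (1 - τ / g)) / g = 1 - τ / g := by
      field_simp
    rw [h1]
    nlinarith
  have hloc : IsLocallyConstant fun s : Set.Icc (0 : ℝ) 1 =>
      TypeW κ δ g G w z (a s) (E s) := by
    rw [IsLocallyConstant.iff_eventually_eq]
    intro s0
    have h1 : ∀ᶠ s : Set.Icc (0 : ℝ) 1 in nhds s0,
        esum (Ham (Letter.op G z) w (a s) - Ham (Letter.op G z) w (a s0)) < ε1 := by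
      have h2 : Continuous fun s : Set.Icc (0 : ℝ) 1 =>
          esum (Ham (Letter.op G z) w (a s) - Ham (Letter.op G z) w (a s0)) :=
        continuous_esum.comp (hH.sub continuous_const)
      have h3 := h2.tendsto s0
      rw [sub_self] at h3
      have h4 : esum (0 : Op n Y) = 0 := by
        unfold esum
        simp
      rw [h4] at h3
      exact h3.eventually (gt_mem_nhds hε1)
    have h2 : ∀ᶠ s : Set.Icc (0 : ℝ) 1 in nhds s0, |E s - E s0| < ε1 := by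
      have h3 : Continuous fun s : Set.Icc (0 : ℝ) 1 => |E s - E s0| :=
        (hE'.sub continuous_const).abs
      have h4 := h3.tendsto s0
      rw [sub_self, abs_zero] at h4
      exact h4.eventually (gt_mem_nhds hε1)
    filter_upwards [h1, h2] with s hs1 hs2
    have hn0 := hn s0 s0.2
    have hns := hn s s.2
    obtain ⟨k1, k2, k3⟩ := nodeW_hilbert hn0.toW
    obtain ⟨l1, l2, -⟩ := nodeW_hilbert hns.toW
    have h5 := overlap_near hg0 k1 l1 k2 l2 k3 (ε := ε1) (by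
      rw [lin_eq, lin_eq, ← LinearMap.sub_apply, ← map_sub]
      refine (norm_lin_le_esum _ _).trans ?_
      rw [l1, mul_one]
      exact hs1.le) hs2.le
    have h6 : τ / g < ‖inner ℂ (WithLp.toLp 2 (ψ s0) : Sp n Y) (WithLp.toLp 2 (ψ s))‖ := by
      by_contra h7
      push Not at h7
      have h8 := pow_le_pow_left₀ (norm_nonneg _) h7 2
      linarith
    have h7 : τ / g < ‖inner ℂ (WithLp.toLp 2 (ψ s) : Sp n Y) (WithLp.toLp 2 (ψ s0))‖ := by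
      rwa [norm_inner_symm]
    rw [inner_toLp', hτ] at h6 h7
    refine propext ⟨fun h8 => ?_, fun h8 => ?_⟩
    · exact typeX_step0 hP hg hg1 hns h8 hn0 h6
    · exact typeX_step0 hP hg hg1 hn0 h8 hns h7
  have h1 := hloc.apply_eq_of_preconnectedSpace (⟨0, by simp⟩ : Set.Icc (0 : ℝ) 1) ⟨s, hs⟩
  simp only at h1
  rw [← h1]
  exact h0

end chainX

theorem hard_of_goodX {α κ Λ t u ε δ ν : ℝ} {A : Set (Fin p → ℝ)} (hκ : 0 < κ) (hκ1 : κ ≤ 1)
    (hΛ : 0 ≤ Λ)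
    (hε0 : 0 ≤ ε) (hε : ε ≤ 1) (hν0 : 0 ≤ ν) (ht : ε + ν < t)
    (hsm : Λ * (r * 2 ^ (r + 1)) * (ν + ε + 2 / Real.sqrt (2 ^ k)) ≤ κ / 4) (hm : 0 < m)
    {G : Fin m → Clause n k} (hG : Typ ε δ ν G) (w : Fin p → List (Letter n m Y))
    (T : Fin q → List (Gate n p Y)) (hw : ∀ i, ∀ l ∈ w i, l.Ok k)
    (hr : ∀ i, (w i).length ≤ r) (hT : ∀ j, ∀ c ∈ T j, c.Ok) (z : Cube n)
    (hz : GoodX α κ Λ δ (κ * (2 : ℝ) ^ (-u * n) / (1600 * (Λ + 1) * 2 ^ r)) r A G w T z) :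
    Hard α κ Λ t u A G w T z := by
  have hP : ParX α κ Λ u ε δ ν r A G w T z :=
    ⟨hκ, hκ1, hΛ, hε0, hε, hν0, hsm, hm, hG, hw, hr, hT, hz⟩
  intro g l a E ψ hg hg1 ha0 hpath hjump j L hL
  have hτ0 : (0 : ℝ) < (2 : ℝ) ^ (-u * n) := by positivity
  have hg0 : 0 < g := hτ0.trans hg
  have hnode : ∀ i ≤ l, ∀ s ∈ Set.Icc (0 : ℝ) 1,
      NodeX α κ Λ g A G w z (a i s) (E i s) (ψ i s) := by
    intro i hi s hs
    obtain ⟨h0, h1, h2, h3⟩ := (hpath i hi).2.2 s hs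
    exact ⟨h0, h1, h2, h3⟩
  have h01 : (0 : ℝ) ∈ Set.Icc (0 : ℝ) 1 := by simp
  have h11 : (1 : ℝ) ∈ Set.Icc (0 : ℝ) 1 := by simp
  have hall : ∀ i ≤ l, ∀ s ∈ Set.Icc (0 : ℝ) 1, TypeW κ δ g G w z (a i s) (E i s) := by
    intro i
    induction i with
    | zero =>
      intro hi s hs
      have h1 := hpath 0 hi
      exact typeX_path hP hg hg1 h1.1 h1.2.1 (hnode 0 hi)
        (typeW_start hκ hg0 (hnode 0 hi 0 h01).toW ha0) hs
    | succ i ih =>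
      intro hi s hs
      have h1 := hpath (i + 1) hi
      have hi' : i ≤ l := by omega
      exact typeX_path hP hg hg1 h1.1 h1.2.1 (hnode (i + 1) hi)
        (typeX_step1 hP hg hg1 (hnode i hi' 1 h11) (ih hi' 1 h11) (hnode (i + 1) hi 0 h01)
          (hjump i (by omega))) hs
  have h2 := typeX_out hP hg hg1 (hnode l le_rfl 1 h11) (hall l le_rfl 1 h11) (some j)
  refine le_trans ?_ h2
  have h9 : lin (circ (Letter.op G z) w z (Tw T (some j))) (WithLp.toLp 2 (ψ l 1) : Sp n Y) =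
      WithLp.toLp 2 (circ (Letter.op G z) w z (T j) *ᵥ ψ l 1) := by
    rw [lin_eq, lin_toLp]
    rfl
  rw [h9, ← Real.sqrt_sq (norm_nonneg (nearP (hball δ z)
    (WithLp.toLp 2 (circ (Letter.op G z) w z (T j) *ᵥ ψ l 1) : Sp n Y))), nearP_sq]
  refine Real.sqrt_le_sqrt (sum_le_sum_of_subset_of_nonneg ?_ fun x _ _ =>
    sum_nonneg fun y _ => sq_nonneg _)
  intro x hx
  by_contra hxB
  have hm' : (0 : ℝ) < m := by exact_mod_cast hm
  have h3 := hL x hx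
  have h4 := (viol_bounds hm hG x).1
  have h5 := wn_bound (z := z) hm hG hxB
  have h6 := pviol_eq G z x
  have h7 : (0 : ℝ) < 2 ^ k / m := by positivity
  have h8 : 2 ^ k / m * (pviol G z x : ℝ) ≤ 1 - t := by
    calc 2 ^ k / m * (pviol G z x : ℝ) ≤ 2 ^ k / m * ((1 - t) * m / 2 ^ k) :=
          mul_le_mul_of_nonneg_left h3 h7.le
      _ = 1 - t := by field_simp
  rw [h6, mul_sub] at h8
  linarith

end Pool.Agent.H73.AX
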